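import Pool.Agent.Lib.MP_0a5adf_nt.EXP.Base

set_option autoImplicit false

namespace Pool.Agent.Lib.MP_0a5adf_nt.EXP.H12

open Finset

theorem suf_anti {k : ℕ} (w : Fin k → Bool) {a b : ℕ} (h : a ≤ b) : suf w b ≤ suf w a := by
  unfold suf
  apply Finset.sum_le_sum
  intro t _
  by_cases h1 : (t : ℕ) < a
  · rw [if_pos h1, if_pos (lt_of_lt_of_le h1 h)]
  · rw [if_neg h1]
    split_ifs
    · exact Nat.zero_le _
    · exact le_rfl

theorem suf_self {k : ℕ} (w : Fin k → Bool) : suf w k = 0 := by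
  unfold suf
  apply Finset.sum_eq_zero
  intro t _
  rw [if_pos t.isLt]

theorem rise : RiseStatement := by
  intro m w
  obtain ⟨n, hn, hmax⟩ := Finset.exists_max_image (Finset.range (m + 1))
    (fun n => 2 ^ n * 3 ^ suf w n) ⟨0, by simp⟩
  have hnm : n ≤ m := by
    have := Finset.mem_range.1 hn; omega
  refine ⟨n, hnm, ?_, ?_⟩
  · have h := hmax m (by simp)
    simpa [suf_self] using h
  · unfold rr
    have hterm : ∀ t : Fin m, ((w t).toNat : ℤ) * (2 ^ (t : ℕ) * 3 ^ (suf w ((t : ℕ) + 1))) ≤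
        2 ^ n * 3 ^ suf w n := by
      intro t
      have h1 : ((w t).toNat : ℤ) ≤ 1 := by
        cases w t <;> simp
      have h2 : (2 : ℤ) ^ (t : ℕ) * 3 ^ (suf w ((t : ℕ) + 1)) ≤ 2 ^ (t : ℕ) * 3 ^ (suf w (t : ℕ)) := by
        apply mul_le_mul_of_nonneg_left _ (by positivity)
        exact pow_le_pow_right₀ (by norm_num) (suf_anti w (Nat.le_succ _))
      have h3 : (2 : ℕ) ^ (t : ℕ) * 3 ^ (suf w (t : ℕ)) ≤ 2 ^ n * 3 ^ suf w n :=
        hmax (t : ℕ) (Finset.mem_range.2 (by have := t.isLt; omega))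
      have h3' : (2 : ℤ) ^ (t : ℕ) * 3 ^ (suf w (t : ℕ)) ≤ 2 ^ n * 3 ^ suf w n := by
        exact_mod_cast h3
      have h4 : (0 : ℤ) ≤ 2 ^ (t : ℕ) * 3 ^ (suf w ((t : ℕ) + 1)) := by positivity
      calc ((w t).toNat : ℤ) * (2 ^ (t : ℕ) * 3 ^ (suf w ((t : ℕ) + 1)))
          ≤ 1 * (2 ^ (t : ℕ) * 3 ^ (suf w ((t : ℕ) + 1))) := mul_le_mul_of_nonneg_right h1 h4
        _ = 2 ^ (t : ℕ) * 3 ^ (suf w ((t : ℕ) + 1)) := one_mul _
        _ ≤ _ := h2.trans h3'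
    calc (∑ t : Fin m, ((w t).toNat : ℤ) * (2 ^ (t : ℕ) * 3 ^ (suf w ((t : ℕ) + 1))))
        ≤ ∑ _t : Fin m, ((2 : ℤ) ^ n * 3 ^ suf w n) := Finset.sum_le_sum (fun t _ => hterm t)
      _ = m * (2 ^ n * 3 ^ suf w n) := by
        rw [Finset.sum_const, Finset.card_univ, Fintype.card_fin, nsmul_eq_mul]

end Pool.Agent.Lib.MP_0a5adf_nt.EXP.H12
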