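import Pool.Agent.Lib.MP_0a5adf_nt.EXP.Base

set_option autoImplicit false

namespace Pool.Agent.Lib.MP_0a5adf_nt.EXP.H12

open Finset

theorem sol : SolStatement := by
  intro J Q r
  have : NeZero (2 ^ Q : ℕ) := ⟨pow_ne_zero _ (by norm_num)⟩
  have h0 : 0 ≤ EXP.sol J Q r := by
    unfold EXP.sol; positivity
  have h1 : EXP.sol J Q r < 2 ^ Q := by
    unfold EXP.sol
    have := ZMod.val_lt ((-(r : ZMod (2 ^ Q))) * ((3 : ZMod (2 ^ Q)) ^ J)⁻¹)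
    exact_mod_cast this
  refine ⟨h0, h1, ?_⟩
  unfold zeta
  have hdvd : (2 : ℤ) ^ Q ∣ 3 ^ J * EXP.sol J Q r + r := by
    have h2 : (((2 ^ Q : ℕ) : ℤ)) ∣ 3 ^ J * EXP.sol J Q r + r := by
      rw [← ZMod.intCast_zmod_eq_zero_iff_dvd]
      push_cast
      have hs : ((EXP.sol J Q r : ℤ) : ZMod (2 ^ Q)) =
          (-(r : ZMod (2 ^ Q))) * ((3 : ZMod (2 ^ Q)) ^ J)⁻¹ := by
        unfold EXP.sol
        rw [Int.cast_natCast, ZMod.natCast_val, ZMod.cast_id', id]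
      rw [hs]
      have hu : IsUnit ((3 : ZMod (2 ^ Q)) ^ J) := by
        have h3 : IsUnit (((3 ^ J : ℕ)) : ZMod (2 ^ Q)) := by
          rw [ZMod.isUnit_iff_coprime]
          exact Nat.Coprime.pow _ _ (by norm_num)
        simpa using h3
      have hm : (3 : ZMod (2 ^ Q)) ^ J * ((3 : ZMod (2 ^ Q)) ^ J)⁻¹ = 1 :=
        ZMod.mul_inv_of_unit _ hu
      calc (3 : ZMod (2 ^ Q)) ^ J * (-(r : ZMod (2 ^ Q)) * ((3 : ZMod (2 ^ Q)) ^ J)⁻¹) + (r : ZMod (2 ^ Q))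
          = -(r : ZMod (2 ^ Q)) * ((3 : ZMod (2 ^ Q)) ^ J * ((3 : ZMod (2 ^ Q)) ^ J)⁻¹) + (r : ZMod (2 ^ Q)) := by ring
        _ = 0 := by rw [hm]; ring
    push_cast at h2
    exact h2
  exact Int.mul_ediv_cancel' hdvd

end Pool.Agent.Lib.MP_0a5adf_nt.EXP.H12
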