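import Pool.Agent.Lib.MP_0a5adf_nt.EXP.Base

set_option autoImplicit false

namespace Pool.Agent.Lib.MP_0a5adf_nt.EXP.H12

open Finset

theorem S_finite (m c : ℕ) : (S m c).Finite := by
  apply (Set.finite_Icc (-(2 ^ (3 * m + c) : ℤ)) (2 ^ (3 * m + c))).subset
  intro x hx
  exact abs_le.1 hx.1

theorem stop (hM : MainStatement) : StopStatement := by
  obtain ⟨C0, hC0⟩ := hM 3
  refine ⟨1 + 2 * |C0|, ?_⟩
  intro X hX
  set ρ : ℝ := (2 : ℝ) ^ ((0.941 : ℝ) * 3) with hρ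
  have hρ2 : 2 ≤ ρ := by
    have : (2 : ℝ) ^ (1 : ℝ) ≤ (2 : ℝ) ^ ((0.941 : ℝ) * 3) :=
      Real.rpow_le_rpow_of_exponent_le (by norm_num) (by norm_num)
    simpa using this
  have hρ0 : 0 < ρ := by linarith
  have hpow : ∀ m : ℕ, (2 : ℝ) ^ ((0.941 : ℝ) * (3 * (m : ℝ))) = ρ ^ m := by
    intro m
    rw [hρ, ← Real.rpow_natCast, ← Real.rpow_mul (by norm_num)]
    congr 1; ring
  set M : ℕ := Nat.log 8 ⌊X⌋₊ with hMdef
  have hX0 : 0 ≤ X := by linarith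
  have hfl : ⌊X⌋₊ ≠ 0 := by
    have : 1 ≤ ⌊X⌋₊ := Nat.le_floor (by simpa using hX)
    omega
  have h8M : (8 : ℝ) ^ M ≤ X := by
    have h1 : 8 ^ M ≤ ⌊X⌋₊ := Nat.pow_log_le_self 8 hfl
    have h2 : ((8 ^ M : ℕ) : ℝ) ≤ (⌊X⌋₊ : ℝ) := by exact_mod_cast h1
    have h3 : (⌊X⌋₊ : ℝ) ≤ X := Nat.floor_le hX0
    push_cast at h2
    linarith
  have hρM : ρ ^ M ≤ X ^ (0.941 : ℝ) := by
    have h1 : ρ ^ M = ((8 : ℝ) ^ M) ^ (0.941 : ℝ) := by
      rw [hρ, ← Real.rpow_natCast, ← Real.rpow_mul (by norm_num), ← Real.rpow_natCast (8 : ℝ),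
        ← Real.rpow_mul (by norm_num)]
      have h8 : (8 : ℝ) = (2 : ℝ) ^ (3 : ℝ) := by norm_num
      rw [h8, ← Real.rpow_mul (by norm_num)]
      congr 1; ring
    rw [h1]
    exact Real.rpow_le_rpow (by positivity) h8M (by norm_num)
  set F : Finset ℤ := insert 0 ((range (M + 1)).biUnion (fun m => (S_finite m 3).toFinset)) with hF
  have hsub : {x : ℤ | |(x : ℝ)| ≤ X ∧ ∀ k : ℕ, (k : ℝ) ≤ 4 / 3 * Real.logb 2 X → |x| ≤ |T^[k] x|} ⊆
      (F : Set ℤ) := by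
    rintro x ⟨hxX, hk⟩
    rw [hF, Finset.coe_insert]
    by_cases hx0 : x = 0
    · left; exact hx0
    right
    rw [Finset.mem_coe, Finset.mem_biUnion]
    have hna : x.natAbs ≠ 0 := Int.natAbs_ne_zero.2 hx0
    set m := Nat.log 8 x.natAbs with hm
    have h1 : 8 ^ m ≤ x.natAbs := Nat.pow_log_le_self 8 hna
    have h2 : x.natAbs < 8 ^ (m + 1) := Nat.lt_pow_succ_log_self (by norm_num) _
    have habs : |x| = (x.natAbs : ℤ) := Int.abs_eq_natAbs x
    have hle : x.natAbs ≤ ⌊X⌋₊ := by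
      apply Nat.le_floor
      have : ((x.natAbs : ℕ) : ℝ) = |(x : ℝ)| := by
        rw [← Int.cast_abs, habs]; simp
      rw [this]; exact hxX
    have hmM : m ≤ M := Nat.log_mono_right hle
    have h28 : (2 : ℤ) ^ (3 * m) = 8 ^ m := by rw [pow_mul]; norm_num
    have h1' : (2 : ℤ) ^ (3 * m) ≤ |x| := by
      rw [h28, habs]; exact_mod_cast h1
    have h28' : (2 : ℤ) ^ (3 * m + 3) = 8 ^ (m + 1) := by
      rw [show 3 * m + 3 = 3 * (m + 1) by ring, pow_mul]; norm_num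
    have h2' : |x| ≤ (2 : ℤ) ^ (3 * m + 3) := by
      rw [h28', habs]; exact_mod_cast h2.le
    refine ⟨m, Finset.mem_range.2 (by omega), ?_⟩
    rw [Set.Finite.mem_toFinset]
    refine ⟨h2', ?_⟩
    intro i hi1 hi4
    have hlog : ((3 * m : ℕ) : ℝ) ≤ Real.logb 2 X := by
      rw [Real.le_logb_iff_rpow_le (by norm_num) (by linarith), Real.rpow_natCast]
      have h3 : ((2 : ℤ) ^ (3 * m) : ℝ) ≤ ((|x| : ℤ) : ℝ) := by exact_mod_cast h1'
      push_cast at h3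
      linarith
    have hki : ((i * m : ℕ) : ℝ) ≤ 4 / 3 * Real.logb 2 X := by
      have h4 : ((i * m : ℕ) : ℝ) ≤ ((4 * m : ℕ) : ℝ) := by
        exact_mod_cast Nat.mul_le_mul_right m hi4
      push_cast at h4 hlog ⊢
      linarith
    have h5 := hk (i * m) hki
    have h6 : 0 ≤ |T^[i * m] x| := abs_nonneg _
    calc (2 : ℤ) ^ (3 * m) ≤ |x| := h1'
      _ ≤ |T^[i * m] x| := h5
      _ ≤ 2 ^ 3 * |T^[i * m] x| := by linarith
  have hcard : ({x : ℤ | |(x : ℝ)| ≤ X ∧ ∀ k : ℕ, (k : ℝ) ≤ 4 / 3 * Real.logb 2 X →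
      |x| ≤ |T^[k] x|}.ncard : ℝ) ≤ (F.card : ℝ) := by
    have := Set.ncard_le_ncard hsub (Finset.finite_toSet F)
    rw [Set.ncard_coe_finset] at this
    exact_mod_cast this
  have hFc : (F.card : ℝ) ≤ 1 + ∑ m ∈ range (M + 1), ((S m 3).ncard : ℝ) := by
    have h1 : F.card ≤ ((range (M + 1)).biUnion (fun m => (S_finite m 3).toFinset)).card + 1 :=
      Finset.card_insert_le _ _
    have h2 : ((range (M + 1)).biUnion (fun m => (S_finite m 3).toFinset)).card ≤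
        ∑ m ∈ range (M + 1), ((S_finite m 3).toFinset).card := Finset.card_biUnion_le
    have h3 : ∀ m, ((S_finite m 3).toFinset).card = (S m 3).ncard := by
      intro m
      rw [Set.ncard_eq_toFinset_card _ (S_finite m 3)]
    simp only [h3] at h2
    have h4 : F.card ≤ 1 + ∑ m ∈ range (M + 1), (S m 3).ncard := by omega
    exact_mod_cast h4
  have hsum : ∑ m ∈ range (M + 1), ((S m 3).ncard : ℝ) ≤ |C0| * (2 * ρ ^ M) := by
    have h1 : ∀ m ∈ range (M + 1), ((S m 3).ncard : ℝ) ≤ |C0| * ρ ^ m := by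
      intro m _
      have := hC0 m
      rw [hpow] at this
      exact this.trans (mul_le_mul_of_nonneg_right (le_abs_self _) (by positivity))
    have h2 : ∀ n : ℕ, ∑ m ∈ range (n + 1), ρ ^ m ≤ 2 * ρ ^ n := by
      intro n
      induction n with
      | zero => simp
      | succ n ih =>
        rw [Finset.sum_range_succ, pow_succ]
        have h3 : 0 < ρ ^ n := by positivity
        nlinarith
    calc ∑ m ∈ range (M + 1), ((S m 3).ncard : ℝ) ≤ ∑ m ∈ range (M + 1), |C0| * ρ ^ m :=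
          Finset.sum_le_sum h1
      _ = |C0| * ∑ m ∈ range (M + 1), ρ ^ m := by rw [Finset.mul_sum]
      _ ≤ |C0| * (2 * ρ ^ M) := mul_le_mul_of_nonneg_left (h2 M) (abs_nonneg _)
  have hX1 : 1 ≤ X ^ (0.941 : ℝ) := Real.one_le_rpow hX (by norm_num)
  have hfin : |C0| * (2 * ρ ^ M) ≤ |C0| * (2 * X ^ (0.941 : ℝ)) :=
    mul_le_mul_of_nonneg_left (by linarith) (abs_nonneg _)
  calc _ ≤ (F.card : ℝ) := hcard
    _ ≤ 1 + |C0| * (2 * X ^ (0.941 : ℝ)) := by linarith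
    _ ≤ (1 + 2 * |C0|) * X ^ (0.941 : ℝ) := by nlinarith [abs_nonneg C0]

end Pool.Agent.Lib.MP_0a5adf_nt.EXP.H12
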